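import Pool.Agent.K7.H37.UK.Stm

set_option autoImplicit false

/-! The rhombus is ambient isotopic to the ellipse (job RHO of the project UK). -/

namespace Pool.Agent.K7.H26.UK.Rho

open Set Pool.Agent.K7.H37.UK

noncomputable section

/-- first coordinate -/
def xx (p : ℂ × ℝ) : ℝ := p.1.re
/-- second coordinate -/
def yy (p : ℂ × ℝ) : ℝ := p.2 / √2
/-- Euclidean norm -/
def rr (p : ℂ × ℝ) : ℝ := √(xx p ^ 2 + yy p ^ 2)
/-- sum norm -/
def mm (p : ℂ × ℝ) : ℝ := |xx p| + |yy p|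
/-- the factor -/
def ff (t : ℝ) (p : ℂ × ℝ) : ℝ := (1 - t) + t * (mm p / rr p)
/-- multiplication -/
def mult (c : ℝ) (p : ℂ × ℝ) : ℂ × ℝ := (⟨c * p.1.re, p.1.im⟩, c * p.2)

lemma xx_mult (c : ℝ) (p : ℂ × ℝ) : xx (mult c p) = c * xx p := rfl
lemma yy_mult (c : ℝ) (p : ℂ × ℝ) : yy (mult c p) = c * yy p := by
  unfold yy mult
  ring
lemma rr_mult {c : ℝ} (hc : 0 ≤ c) (p : ℂ × ℝ) : rr (mult c p) = c * rr p := by
  unfold rr
  rw [xx_mult, yy_mult, show (c * xx p) ^ 2 + (c * yy p) ^ 2 = c ^ 2 * (xx p ^ 2 + yy p ^ 2) by ring,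
    Real.sqrt_mul (by positivity), Real.sqrt_sq hc]
lemma mm_mult {c : ℝ} (hc : 0 ≤ c) (p : ℂ × ℝ) : mm (mult c p) = c * mm p := by
  unfold mm
  rw [xx_mult, yy_mult, abs_mul, abs_mul, abs_of_nonneg hc]
  ring
lemma rr_nonneg (p : ℂ × ℝ) : 0 ≤ rr p := Real.sqrt_nonneg _
lemma mm_nonneg (p : ℂ × ℝ) : 0 ≤ mm p := by unfold mm; positivity
lemma rr_sq (p : ℂ × ℝ) : rr p ^ 2 = xx p ^ 2 + yy p ^ 2 := Real.sq_sqrt (by positivity)
lemma le_of_sq_le_sq' {a b : ℝ} (h : a ^ 2 ≤ b ^ 2) (hb : 0 ≤ b) : a ≤ b :=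
  le_of_abs_le (abs_le_of_sq_le_sq h hb)
lemma rr_le (p : ℂ × ℝ) : rr p ≤ mm p := by
  refine le_of_sq_le_sq' ?_ (mm_nonneg p)
  rw [rr_sq]
  unfold mm
  nlinarith [abs_nonneg (xx p), abs_nonneg (yy p), sq_abs (xx p), sq_abs (yy p),
    mul_nonneg (abs_nonneg (xx p)) (abs_nonneg (yy p))]
lemma mm_le (p : ℂ × ℝ) : mm p ≤ 2 * rr p := by
  refine le_of_sq_le_sq' ?_ (by have := rr_nonneg p; positivity)
  rw [mul_pow, rr_sq]
  unfold mm
  nlinarith [abs_nonneg (xx p), abs_nonneg (yy p), sq_abs (xx p), sq_abs (yy p),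
    sq_nonneg (|xx p| - |yy p|)]
lemma zero_of {p : ℂ × ℝ} (h : rr p = 0) : p.1.re = 0 ∧ p.2 = 0 := by
  have h2 := rr_sq p
  rw [h] at h2
  have hx : xx p = 0 := by nlinarith [sq_nonneg (xx p), sq_nonneg (yy p)]
  have hy : yy p = 0 := by nlinarith [sq_nonneg (xx p), sq_nonneg (yy p)]
  refine ⟨hx, ?_⟩
  unfold yy at hy
  have h3 : √2 ≠ 0 := by positivity
  rcases div_eq_zero_iff.1 hy with h4 | h4
  · exact h4
  · exact absurd h4 h3

lemma one_le_ff {t : ℝ} (ht : t ∈ Icc (0 : ℝ) 1) {p : ℂ × ℝ} (h : rr p ≠ 0) : 1 ≤ ff t p := by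
  have h1 : 0 < rr p := lt_of_le_of_ne (rr_nonneg p) (Ne.symm h)
  have h2 : 1 ≤ mm p / rr p := by
    rw [le_div_iff₀ h1, one_mul]
    exact rr_le p
  unfold ff
  nlinarith [ht.1, ht.2]
lemma ff_le_two {t : ℝ} (ht : t ∈ Icc (0 : ℝ) 1) {p : ℂ × ℝ} (h : rr p ≠ 0) : ff t p ≤ 2 := by
  have h1 : 0 < rr p := lt_of_le_of_ne (rr_nonneg p) (Ne.symm h)
  have h2 : mm p / rr p ≤ 2 := by
    rw [div_le_iff₀ h1]
    exact mm_le p
  unfold ff
  nlinarith [ht.1, ht.2]
lemma ff_mult {t c : ℝ} (hc : 0 < c) (p : ℂ × ℝ) : ff t (mult c p) = ff t p := by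
  unfold ff
  rw [mm_mult hc.le, rr_mult hc.le, mul_div_mul_left _ _ hc.ne']

lemma mult_zero_rr {p : ℂ × ℝ} (h : rr p = 0) (c : ℝ) : mult c p = p := by
  obtain ⟨h1, h2⟩ := zero_of h
  refine Prod.ext (Complex.ext ?_ rfl) ?_
  · change c * p.1.re = p.1.re
    rw [h1, mul_zero]
  · change c * p.2 = p.2
    rw [h2, mul_zero]
lemma mult_mult (c c' : ℝ) (p : ℂ × ℝ) : mult c (mult c' p) = mult (c * c') p := by
  unfold mult
  refine Prod.ext (Complex.ext ?_ rfl) ?_
  · simp [mul_assoc]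
  · simp [mul_assoc]
lemma mult_one (p : ℂ × ℝ) : mult 1 p = p := by
  refine Prod.ext (Complex.ext ?_ rfl) ?_ <;> simp [mult]

lemma cont_xx : Continuous xx := by unfold xx; fun_prop
lemma cont_yy : Continuous yy := by unfold yy; fun_prop
lemma cont_rr : Continuous rr := by
  unfold rr
  exact ((cont_xx.pow 2).add (cont_yy.pow 2)).sqrt
lemma cont_mm : Continuous mm := cont_xx.abs.add cont_yy.abs

/-- products with a bounded factor -/
lemma cont_mul {Z : Type} [TopologicalSpace Z] (F a r : Z → ℝ) (hF : ∀ z, |F z * a z| ≤ 2 * |a z|)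
    (ha : Continuous a) (hc : ∀ z, r z ≠ 0 → ContinuousAt F z) (h0 : ∀ z, r z = 0 → a z = 0) :
    Continuous fun z => F z * a z := by
  rw [continuous_iff_continuousAt]
  intro z
  by_cases h : r z = 0
  · have h1 := h0 z h
    have h2 : Filter.Tendsto (fun z => 2 * |a z|) (nhds z) (nhds 0) := by
      have := (ha.abs.const_mul 2).tendsto z
      simpa [h1] using this
    have h3 : F z * a z = 0 := by rw [h1, mul_zero]
    change Filter.Tendsto (fun z => F z * a z) (nhds z) (nhds (F z * a z))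
    rw [h3]
    exact squeeze_zero_norm (fun z => hF z) h2
  · exact (hc z h).mul ha.continuousAt

lemma ff_at (z : unitInterval × (ℂ × ℝ)) (h : rr z.2 ≠ 0) :
    ContinuousAt (fun z : unitInterval × (ℂ × ℝ) => ff z.1 z.2) z := by
  unfold ff
  have h1 : ContinuousAt (fun z : unitInterval × (ℂ × ℝ) => mm z.2 / rr z.2) z :=
    (cont_mm.comp continuous_snd).continuousAt.div (cont_rr.comp continuous_snd).continuousAt h
  have h2 : Continuous (fun z : unitInterval × (ℂ × ℝ) => (z.1 : ℝ)) :=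
    continuous_subtype_val.comp continuous_fst
  exact (continuousAt_const.sub h2.continuousAt).add (h2.continuousAt.mul h1)

/-- joint continuity -/
lemma cont_mult (F : unitInterval × (ℂ × ℝ) → ℝ)
    (hF : ∀ z, rr z.2 ≠ 0 → |F z| ≤ 2) (hc : ∀ z, rr z.2 ≠ 0 → ContinuousAt F z) :
    Continuous fun z : unitInterval × (ℂ × ℝ) => mult (F z) z.2 := by
  have h1 : Continuous fun z : unitInterval × (ℂ × ℝ) => F z * z.2.1.re := by
    refine cont_mul F _ (fun z => rr z.2) (fun z => ?_) (by fun_prop) hc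
      (fun z h => (zero_of h).1)
    by_cases h : rr z.2 = 0
    · rw [(zero_of h).1]
      simp
    · rw [abs_mul]
      exact mul_le_mul_of_nonneg_right (hF z h) (abs_nonneg _)
  have h2 : Continuous fun z : unitInterval × (ℂ × ℝ) => F z * z.2.2 := by
    refine cont_mul F _ (fun z => rr z.2) (fun z => ?_) (by fun_prop) hc
      (fun z h => (zero_of h).2)
    by_cases h : rr z.2 = 0
    · rw [(zero_of h).2]
      simp
    · rw [abs_mul]
      exact mul_le_mul_of_nonneg_right (hF z h) (abs_nonneg _)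
  have h3 : (fun z : unitInterval × (ℂ × ℝ) => mult (F z) z.2) = fun z =>
      (((F z * z.2.1.re : ℝ) : ℂ) + ((z.2.1.im : ℝ) : ℂ) * Complex.I, F z * z.2.2) := by
    funext z
    refine Prod.ext (Complex.ext ?_ ?_) rfl <;> simp [mult]
  rw [h3]
  refine Continuous.prodMk ?_ h2
  exact (Complex.continuous_ofReal.comp h1).add
    ((Complex.continuous_ofReal.comp (by fun_prop)).mul continuous_const)

lemma cont_fwd : Continuous fun z : unitInterval × (ℂ × ℝ) => mult (ff z.1 z.2) z.2 := by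
  refine cont_mult (fun z => ff z.1 z.2) (fun z h => ?_) ff_at
  have h1 := one_le_ff z.1.2 h
  have h2 := ff_le_two z.1.2 h
  rw [abs_of_nonneg (by linarith)]
  exact h2

lemma cont_bwd : Continuous fun z : unitInterval × (ℂ × ℝ) => mult (ff z.1 z.2)⁻¹ z.2 := by
  refine cont_mult (fun z => (ff z.1 z.2)⁻¹) (fun z h => ?_) (fun z h => ?_)
  · have h1 := one_le_ff z.1.2 h
    rw [abs_of_nonneg (by positivity)]
    exact (inv_le_one_of_one_le₀ h1).trans (by norm_num)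
  · have h1 := one_le_ff z.1.2 h
    exact (ff_at z h).inv₀ (by positivity)

/-- the isotopy -/
def iso (t : unitInterval) : (ℂ × ℝ) ≃ₜ (ℂ × ℝ) where
  toFun p := mult (ff t p) p
  invFun p := mult (ff t p)⁻¹ p
  left_inv p := by
    change mult (ff t (mult (ff t p) p))⁻¹ (mult (ff t p) p) = p
    by_cases h : rr p = 0
    · have h1 : mult (ff t p) p = p := mult_zero_rr h _
      rw [h1]
      exact mult_zero_rr h _
    · have h1 := one_le_ff t.2 h
      have h2 : 0 < ff t p := by linarith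
      rw [ff_mult h2, mult_mult, inv_mul_cancel₀ h2.ne', mult_one]
  right_inv p := by
    change mult (ff t (mult (ff t p)⁻¹ p)) (mult (ff t p)⁻¹ p) = p
    by_cases h : rr p = 0
    · have h1 : mult (ff t p)⁻¹ p = p := mult_zero_rr h _
      rw [h1]
      exact mult_zero_rr h _
    · have h1 := one_le_ff t.2 h
      have h2 : 0 < ff t p := by linarith
      rw [ff_mult (inv_pos.2 h2), mult_mult, mul_inv_cancel₀ h2.ne', mult_one]
  continuous_toFun := cont_fwd.comp (continuous_const.prodMk continuous_id)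
  continuous_invFun := cont_bwd.comp (continuous_const.prodMk continuous_id)

lemma ff_one (p : ℂ × ℝ) : ff 1 p = mm p / rr p := by unfold ff; ring
lemma ff_zero (p : ℂ × ℝ) : ff 0 p = 1 := by unfold ff; ring

lemma xx_pt (x t : ℝ) : xx ((x : ℂ), √2 * t) = x := rfl
lemma yy_pt (x t : ℝ) : yy ((x : ℂ), √2 * t) = t := by
  unfold yy
  have h3 : √2 ≠ 0 := by positivity
  field_simp

lemma mult_pt (c x t : ℝ) : mult c ((x : ℂ), √2 * t) = (((c * x : ℝ) : ℂ), √2 * (c * t)) := by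
  refine Prod.ext (Complex.ext ?_ ?_) ?_
  · simp [mult]
  · simp [mult]
  · simp [mult]
    ring

lemma exists_angle {a b : ℝ} (h : a ^ 2 + b ^ 2 = 1) :
    ∃ θ : ℝ, Real.cos θ = a ∧ Real.sin θ = b := by
  have hn : ‖(⟨a, b⟩ : ℂ)‖ = 1 := by
    rw [Complex.norm_eq_sqrt_sq_add_sq]
    simp [h]
  have h0 : (⟨a, b⟩ : ℂ) ≠ 0 := by
    intro h0
    rw [h0, norm_zero] at hn
    exact zero_ne_one hn
  refine ⟨Complex.arg ⟨a, b⟩, ?_, ?_⟩
  · rw [Complex.cos_arg h0, hn]
    simp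
  · rw [Complex.sin_arg, hn]
    simp

theorem rho : StRho := by
  refine ⟨iso, cont_fwd, fun p => ?_, ?_⟩
  · change mult (ff ((0 : unitInterval) : ℝ) p) p = p
    rw [show ((0 : unitInterval) : ℝ) = 0 from rfl, ff_zero, mult_one]
  · have hi : ∀ p, iso 1 p = mult (mm p / rr p) p := by
      intro p
      change mult (ff ((1 : unitInterval) : ℝ) p) p = _
      rw [show ((1 : unitInterval) : ℝ) = 1 from rfl, ff_one]
    ext z
    constructor
    · rintro ⟨p, ⟨x, t, h, rfl⟩, rfl⟩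
      rw [hi, mult_pt]
      have h1 : mm ((x : ℂ), √2 * t) = 1 := by
        unfold mm
        rw [xx_pt, yy_pt, h]
      have h2 : rr ((x : ℂ), √2 * t) = √(x ^ 2 + t ^ 2) := by
        unfold rr
        rw [xx_pt, yy_pt]
      have h3 : 0 < x ^ 2 + t ^ 2 := by
        by_contra h3
        have hx : x = 0 := by nlinarith [sq_nonneg x, sq_nonneg t]
        have ht : t = 0 := by nlinarith [sq_nonneg x, sq_nonneg t]
        rw [hx, ht] at h
        simp at h
      have h4 : √(x ^ 2 + t ^ 2) ^ 2 = x ^ 2 + t ^ 2 := Real.sq_sqrt h3.le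
      have h5 : 0 < √(x ^ 2 + t ^ 2) := Real.sqrt_pos.2 h3
      obtain ⟨θ, c, s⟩ := exists_angle (a := 1 / √(x ^ 2 + t ^ 2) * x)
        (b := 1 / √(x ^ 2 + t ^ 2) * t) (by
          rw [mul_pow, mul_pow, div_pow, h4]
          field_simp)
      refine ⟨θ, ?_⟩
      rw [h1, h2, c, s]
    · rintro ⟨θ, rfl⟩
      set k := |Real.cos θ| + |Real.sin θ| with hk
      have hk0 : 0 < k := by
        by_contra h3
        have hc : |Real.cos θ| = 0 := by
          have := abs_nonneg (Real.cos θ); have := abs_nonneg (Real.sin θ); linarith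
        have hs : |Real.sin θ| = 0 := by
          have := abs_nonneg (Real.cos θ); have := abs_nonneg (Real.sin θ); linarith
        have h4 := Real.sin_sq_add_cos_sq θ
        rw [abs_eq_zero.1 hc, abs_eq_zero.1 hs] at h4
        norm_num at h4
      refine ⟨(((k⁻¹ * Real.cos θ : ℝ) : ℂ), √2 * (k⁻¹ * Real.sin θ)),
        ⟨k⁻¹ * Real.cos θ, k⁻¹ * Real.sin θ, ?_, rfl⟩, ?_⟩
      · rw [abs_mul, abs_mul, abs_of_pos (inv_pos.2 hk0), ← mul_add, ← hk,
          inv_mul_cancel₀ hk0.ne']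
      · rw [hi, mult_pt]
        have h1 : mm (((k⁻¹ * Real.cos θ : ℝ) : ℂ), √2 * (k⁻¹ * Real.sin θ)) = 1 := by
          unfold mm
          rw [xx_pt, yy_pt, abs_mul, abs_mul, abs_of_pos (inv_pos.2 hk0), ← mul_add, ← hk,
            inv_mul_cancel₀ hk0.ne']
        have h2 : rr (((k⁻¹ * Real.cos θ : ℝ) : ℂ), √2 * (k⁻¹ * Real.sin θ)) = k⁻¹ := by
          unfold rr
          rw [xx_pt, yy_pt, show (k⁻¹ * Real.cos θ) ^ 2 + (k⁻¹ * Real.sin θ) ^ 2 =
            (k⁻¹) ^ 2 * (Real.sin θ ^ 2 + Real.cos θ ^ 2) by ring, Real.sin_sq_add_cos_sq,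
            mul_one, Real.sqrt_sq (inv_nonneg.2 hk0.le)]
        rw [h1, h2, one_div, inv_inv, ← mul_assoc, mul_inv_cancel₀ hk0.ne', one_mul,
          ← mul_assoc k, mul_inv_cancel₀ hk0.ne', one_mul]

end

end Pool.Agent.K7.H26.UK.Rho
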