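import Pool.Agent.K7.H26.UK.TRI

set_option autoImplicit false

/-! The linear coordinates: round circles, transport of isotopies (job RND of the project UK). -/

namespace Pool.Agent.K7.H26.UK

open Set Pool.Agent.K7.H37.UK

/-- the linear coordinates as a homeomorphism -/
noncomputable def thH : R3 ≃ₜ (ℂ × ℝ) where
  toFun := Th
  invFun p := ![(p.2 - p.1.re - p.1.im) / 3 + p.1.re, (p.2 - p.1.re - p.1.im) / 3 + p.1.im,
    (p.2 - p.1.re - p.1.im) / 3]
  left_inv x := by
    funext i
    fin_cases i <;> simp [Th] <;> ring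
  right_inv p := by
    obtain ⟨⟨X, Y⟩, L⟩ := p
    simp only [Th, Matrix.cons_val_zero, Matrix.cons_val_one, Matrix.cons_val_two,
      Prod.mk.injEq, Complex.mk.injEq]
    refine ⟨⟨?_, ?_⟩, ?_⟩
    · simp
    · simp
    · simp
      ring
  continuous_toFun := by
    have h : ∀ x : R3, Th x = (((x 0 - x 2 : ℝ) : ℂ) + ((x 1 - x 2 : ℝ) : ℂ) * Complex.I,
        x 0 + x 1 + x 2) := by
      intro x
      unfold Th
      refine Prod.ext ?_ rfl
      apply Complex.ext <;> simp
    have h2 : Th = fun x : R3 => (((x 0 - x 2 : ℝ) : ℂ) + ((x 1 - x 2 : ℝ) : ℂ) * Complex.I,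
        x 0 + x 1 + x 2) := funext h
    rw [h2]
    fun_prop
  continuous_invFun := by
    refine continuous_pi fun i => ?_
    fin_cases i
    · change Continuous fun p : ℂ × ℝ => (p.2 - p.1.re - p.1.im) / 3 + p.1.re
      fun_prop
    · change Continuous fun p : ℂ × ℝ => (p.2 - p.1.re - p.1.im) / 3 + p.1.im
      fun_prop
    · change Continuous fun p : ℂ × ℝ => (p.2 - p.1.re - p.1.im) / 3
      fun_prop

theorem thH_apply (x : R3) : thH x = Th x := rfl

theorem th_comb (s t : ℝ) (a b : R3) : Th (s • a + t • b) = s • Th a + t • Th b := by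
  refine Prod.ext ?_ ?_
  · apply Complex.ext
    · simp [Th]
      ring
    · simp [Th]
      ring
  · simp [Th]
    ring

theorem th_segment (a b : R3) : Th '' segment ℝ a b = segment ℝ (Th a) (Th b) := by
  ext y
  constructor
  · rintro ⟨x, ⟨s, t, hs, ht, hst, rfl⟩, rfl⟩
    exact ⟨s, t, hs, ht, hst, (th_comb s t a b).symm⟩
  · rintro ⟨s, t, hs, ht, hst, rfl⟩
    exact ⟨s • a + t • b, ⟨s, t, hs, ht, hst, rfl⟩, th_comb s t a b⟩

theorem th_poly (l : List R3) : Th '' poly l = poly (l.map Th) := by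
  have h : (l.map Th).zip ((l.map Th).rotate 1) = (l.zip (l.rotate 1)).map (Prod.map Th Th) := by
    rw [← List.map_rotate, List.zip_map]
  unfold poly
  rw [h]
  ext y
  constructor
  · rintro ⟨x, ⟨e, he, hx⟩, rfl⟩
    refine ⟨Prod.map Th Th e, List.mem_map_of_mem he, ?_⟩
    change Th x ∈ segment ℝ (Th e.1) (Th e.2)
    rw [← th_segment]
    exact ⟨x, hx, rfl⟩
  · rintro ⟨e, he, hy⟩
    obtain ⟨e', he', rfl⟩ := List.mem_map.1 he
    change y ∈ segment ℝ (Th e'.1) (Th e'.2) at hy
    rw [← th_segment] at hy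
    obtain ⟨x, hx, rfl⟩ := hy
    exact ⟨x, ⟨e', he', hx⟩, rfl⟩

theorem round : RoundCircle (thH.symm '' K0) := by
  refine ⟨0, ![2 / 3, -1 / 3, -1 / 3], ![√2 / 3, √2 / 3, √2 / 3], ?_, ?_, ?_, ?_⟩
  · intro h
    have := congrFun h 0
    norm_num at this
  · simp
    ring
  · have h2 : √2 ^ 2 = 2 := Real.sq_sqrt (by norm_num)
    simp
    ring_nf
    rw [h2]
    norm_num
  · have key : ∀ (x : R3) (θ : ℝ), Th x = ((Real.cos θ : ℂ), √2 * Real.sin θ) ↔
        x = (0 : R3) + Real.cos θ • ![2 / 3, -1 / 3, -1 / 3] +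
          Real.sin θ • ![√2 / 3, √2 / 3, √2 / 3] := by
      intro x θ
      rw [zero_add]
      have h1 : Th (Real.cos θ • ![2 / 3, -1 / 3, -1 / 3] +
          Real.sin θ • ![√2 / 3, √2 / 3, √2 / 3]) = ((Real.cos θ : ℂ), √2 * Real.sin θ) := by
        refine Prod.ext ?_ ?_
        · apply Complex.ext
          · rw [Complex.ofReal_re]
            simp [Th]
            ring
          · rw [Complex.ofReal_im]
            simp [Th]
        · simp [Th]
          ring
      constructor
      · intro h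
        rw [← h1] at h
        exact thH.injective h
      · rintro rfl
        exact h1
    ext x
    constructor
    · rintro ⟨y, ⟨θ, hθ⟩, rfl⟩
      refine ⟨θ, (key _ θ).1 ?_⟩
      rw [← thH_apply, thH.apply_symm_apply, hθ]
    · rintro ⟨θ, hθ⟩
      refine ⟨Th x, ⟨θ, (key x θ).2 hθ⟩, ?_⟩
      rw [← thH_apply, thH.symm_apply_apply]

theorem rnd : StRnd := by
  intro l h
  refine ⟨_, round, ?_⟩
  have h2 := tri.2.2 thH.symm _ _ h
  rwa [← th_poly, show Th '' poly l = thH '' poly l from rfl, ← image_comp,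
    Homeomorph.symm_comp_self, image_id] at h2

end Pool.Agent.K7.H26.UK
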