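import Pool.Agent.K7.H37.UK.Stm

set_option autoImplicit false

/-! Ambient isotopies: composition, transport (job TRI of the project UK). -/

namespace Pool.Agent.K7.H26.UK

open Set Pool.Agent.K7.H37.UK

theorem tri : StTri := by
  refine ⟨?_, ?_, ?_⟩
  · rintro X _ A B C ⟨H1, c1, z1, e1⟩ ⟨H2, c2, z2, e2⟩
    refine ⟨fun t => (H1 t).trans (H2 t), ?_, fun x => ?_, ?_⟩
    · exact c2.comp (continuous_fst.prodMk c1)
    · simp only [Homeomorph.trans_apply]
      rw [z1, z2]
    · rw [← e2, ← e1, image_image]
      rfl
  · rintro X _ G A ⟨H, c, z, e⟩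
    exact ⟨H, c, z, image_congr fun x _ => e x⟩
  · rintro X Y _ _ f A B ⟨H, c, z, e⟩
    refine ⟨fun t => (f.symm.trans (H t)).trans f, ?_, fun x => ?_, ?_⟩
    · have h1 : Continuous fun p : unitInterval × Y => (p.1, f.symm p.2) :=
        continuous_fst.prodMk (f.symm.continuous.comp continuous_snd)
      exact f.continuous.comp (c.comp h1)
    · simp only [Homeomorph.trans_apply]
      rw [z, f.apply_symm_apply]
    · change ⇑((f.symm.trans (H 1)).trans f) '' (f '' A) = f '' B
      rw [← e, image_image, image_image]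
      refine image_congr fun x _ => ?_
      simp only [Homeomorph.trans_apply, Homeomorph.symm_apply_apply]

end Pool.Agent.K7.H26.UK
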